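import Pool.Agent.Helper10.NC.Num
import Pool.Agent.Helper88.NCR.Lim

/-!
# Correctness of the evaluation in `Num`, and the strict inequality
-/

set_option autoImplicit false

namespace Pool.Agent.Helper10.NC

open Finset

/-- every `Bool` valued function constant on the classes of the labelling and on the edges of
`T` is constant -/
def Conn (T : Finset (Sym2 (Fin 8))) (l : List ℕ) : Prop :=
  ∀ g : Fin 8 → Bool, (∀ u v : Fin 8, l.getD u 0 = l.getD v 0 → g u = g v) →
    (∀ u v : Fin 8, s(u, v) ∈ T → g u = g v) → ∀ u v, g u = g v

theorem mrg_length (l : List ℕ) (i j : ℕ) : (mrg l i j).length = l.length := by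
  unfold mrg
  simp only
  split_ifs <;> simp

theorem map_getD (l : List ℕ) (f : ℕ → ℕ) (k : ℕ) (hk : k < l.length) :
    (l.map f).getD k 0 = f (l.getD k 0) := by
  simp only [List.getD_eq_getElem?_getD, List.getElem?_map]
  rw [List.getElem?_eq_getElem hk]
  simp

/-- the classes of `mrg` -/
theorem mrg_rel (l : List ℕ) (hl : l.length = 8) (i j u v : Fin 8) :
    (mrg l i j).getD u 0 = (mrg l i j).getD v 0 ↔
      (l.getD u 0 = l.getD v 0 ∨
        ((l.getD u 0 = l.getD i 0 ∨ l.getD u 0 = l.getD j 0) ∧
          (l.getD v 0 = l.getD i 0 ∨ l.getD v 0 = l.getD j 0))) := by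
  have hu : (u : ℕ) < l.length := by rw [hl]; exact u.2
  have hv : (v : ℕ) < l.length := by rw [hl]; exact v.2
  unfold mrg
  simp only
  split_ifs with h
  · rw [map_getD l _ _ hu, map_getD l _ _ hv]
    generalize l.getD (u : ℕ) 0 = a
    generalize l.getD (v : ℕ) 0 = b
    generalize l.getD (i : ℕ) 0 = c
    generalize l.getD (j : ℕ) 0 = d
    split_ifs with h1 h2 h2 <;> grind
  · rw [map_getD l _ _ hu, map_getD l _ _ hv]
    generalize l.getD (u : ℕ) 0 = a
    generalize l.getD (v : ℕ) 0 = b
    generalize l.getD (i : ℕ) 0 = c
    generalize l.getD (j : ℕ) 0 = d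
    split_ifs with h1 h2 h2 <;> grind

theorem conn_insert (T : Finset (Sym2 (Fin 8))) (l : List ℕ) (hl : l.length = 8)
    (i j : Fin 8) : Conn (insert s(i, j) T) l ↔ Conn T (mrg l i j) := by
  constructor
  · intro h g h1 h2
    apply h g
    · intro u v huv
      apply h1
      rw [mrg_rel l hl]
      exact Or.inl huv
    · intro u v huv
      rw [Finset.mem_insert] at huv
      rcases huv with huv | huv
      · have hij : g i = g j := by
          apply h1
          rw [mrg_rel l hl]
          exact Or.inr ⟨Or.inl rfl, Or.inr rfl⟩
        rw [Sym2.eq_iff] at huv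
        rcases huv with ⟨rfl, rfl⟩ | ⟨rfl, rfl⟩
        · exact hij
        · exact hij.symm
      · exact h2 u v huv
  · intro h g h1 h2
    have hij : g i = g j := h2 i j (Finset.mem_insert_self _ _)
    apply h g
    · intro u v huv
      rw [mrg_rel l hl] at huv
      have aux : ∀ w : Fin 8, (l.getD w 0 = l.getD i 0 ∨ l.getD w 0 = l.getD j 0) →
          g w = g i := by
        intro w hw
        rcases hw with hw | hw
        · exact h1 w i hw
        · exact (h1 w j hw).trans hij.symm
      rcases huv with huv | ⟨hu, hv⟩
      · exact h1 u v huv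
      · exact (aux u hu).trans (aux v hv).symm
    · intro u v huv
      exact h2 u v (Finset.mem_insert_of_mem huv)

theorem conn_empty (l : List ℕ) (hl : l.length = 8) :
    Conn ∅ l ↔ allEq l = true := by
  unfold allEq
  constructor
  · intro h
    have key := h (fun u => decide (l.getD u 0 = l.getD 0 0))
      (by intro u v huv; simp only [huv]) (by intro u v huv; simp at huv)
    rw [List.all_eq_true]
    intro x hx
    rw [List.mem_iff_getElem] at hx
    obtain ⟨n, hn, rfl⟩ := hx
    have hn8 : n < 8 := by rw [hl] at hn; exact hn
    have := key ⟨n, hn8⟩ 0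
    simp only [Fin.val_zero, decide_true] at this
    have h3 : l.getD n 0 = l.getD 0 0 := by simpa using this
    have h4 : l.getD n 0 = l[n] := by
      rw [List.getD_eq_getElem?_getD, List.getElem?_eq_getElem hn]; rfl
    rw [h4] at h3
    simp [h3]
  · intro h g h1 h2 u v
    apply h1
    rw [List.all_eq_true] at h
    have aux : ∀ w : Fin 8, l.getD w 0 = l.getD 0 0 := by
      intro w
      have hw : (w : ℕ) < l.length := by rw [hl]; exact w.2
      have h4 : l.getD w 0 = l[(w : ℕ)] := by
        rw [List.getD_eq_getElem?_getD, List.getElem?_eq_getElem hw]; rfl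
      have := h (l[(w : ℕ)]) (List.getElem_mem hw)
      rw [h4]
      simpa using this
    rw [aux u, aux v]

open Classical in
/-- the sum over the subsets of `E` -/
noncomputable def Z (W : Sym2 (Fin 8) → ℝ) (E : Finset (Sym2 (Fin 8))) (l : List ℕ) : ℝ :=
  ∑ T ∈ E.powerset, if Conn T l then ∏ e ∈ T, W e else 0

theorem Z_insert (W : Sym2 (Fin 8) → ℝ) (E : Finset (Sym2 (Fin 8))) (l : List ℕ)
    (hl : l.length = 8) (i j : Fin 8) (h : s(i, j) ∉ E) :
    Z W (insert s(i, j) E) l = Z W E l + W s(i, j) * Z W E (mrg l i j) := by
  classical
  unfold Z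
  rw [Finset.sum_powerset_insert h, Finset.mul_sum]
  congr 1
  apply Finset.sum_congr rfl
  intro T hT
  have hnot : s(i, j) ∉ T := fun h' => h (Finset.mem_powerset.1 hT h')
  by_cases hc : Conn T (mrg l i j)
  · rw [if_pos ((conn_insert T l hl i j).2 hc), if_pos hc, Finset.prod_insert hnot]
  · rw [if_neg (fun h' => hc ((conn_insert T l hl i j).1 h')), if_neg hc, mul_zero]

theorem Z_empty (W : Sym2 (Fin 8) → ℝ) (l : List ℕ) (hl : l.length = 8) :
    Z W ∅ l = if allEq l = true then 1 else 0 := by
  classical
  unfold Z
  rw [Finset.powerset_empty, Finset.sum_singleton]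
  by_cases hc : Conn ∅ l
  · rw [if_pos hc, if_pos ((conn_empty l hl).1 hc)]; simp
  · rw [if_neg hc, if_neg (fun h' => hc ((conn_empty l hl).2 h'))]

theorem iso_iff (l : List ℕ) (v : Fin 8) :
    iso l v = true ↔ ∀ u : Fin 8, u ≠ v → l.getD u 0 ≠ l.getD v 0 := by
  unfold iso
  rw [List.all_eq_true]
  constructor
  · intro h u hu
    have := h u (List.mem_range.2 u.2)
    have hu' : (u : ℕ) ≠ (v : ℕ) := fun h' => hu (Fin.ext h')
    simp only [Bool.or_eq_true, beq_iff_eq, bne_iff_ne] at this
    rcases this with h' | h'
    · exact absurd h' hu'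
    · exact h'
  · intro h n hn
    have hn8 : n < 8 := List.mem_range.1 hn
    simp only [Bool.or_eq_true, beq_iff_eq, bne_iff_ne]
    by_cases hnv : n = (v : ℕ)
    · exact Or.inl hnv
    · exact Or.inr (h ⟨n, hn8⟩ (fun h' => hnv (by rw [← h'])))

/-- an isolated finished vertex -/
theorem Z_iso (W : Sym2 (Fin 8) → ℝ) (E : Finset (Sym2 (Fin 8))) (l : List ℕ)
    (v : Fin 8) (hE : ∀ e ∈ E, v ∉ e) (h : iso l v = true) : Z W E l = 0 := by
  classical
  unfold Z
  apply Finset.sum_eq_zero
  intro T hT
  rw [if_neg]
  intro hc
  rw [iso_iff] at h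
  have key := hc (fun u => decide (u = v))
    (by
      intro a b hab
      by_cases ha : a = v
      · by_cases hb : b = v
        · rw [ha, hb]
        · subst ha
          exact absurd hab.symm (h b hb)
      · by_cases hb : b = v
        · subst hb
          exact absurd hab (h a ha)
        · simp [ha, hb])
    (by
      intro a b hab
      have hm := hE _ (Finset.mem_powerset.1 hT hab)
      have ha : a ≠ v := by
        rintro rfl
        exact hm (Sym2.mem_mk_left _ _)
      have hb : b ≠ v := by
        rintro rfl
        exact hm (Sym2.mem_mk_right _ _)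
      simp [ha, hb])
  have e1 := key v (v + 1)
  have hne : ∀ w : Fin 8, w + 1 ≠ w := by decide
  simp [hne v] at e1

theorem set_getD (l : List ℕ) (hl : l.length = 8) (v w : Fin 8) (c : ℕ) :
    (l.set v c).getD w 0 = if w = v then c else l.getD w 0 := by
  have hv : (v : ℕ) < l.length := by rw [hl]; exact v.2
  simp only [List.getD_eq_getElem?_getD]
  rw [List.getElem?_set]
  by_cases h : w = v
  · subst h
    simp [hv]
  · have : (v : ℕ) ≠ (w : ℕ) := fun h' => h (Fin.ext h'.symm)
    simp [h, this]

/-- a finished vertex which is not isolated may be moved to the class of `1` -/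
theorem Z_move (W : Sym2 (Fin 8) → ℝ) (E : Finset (Sym2 (Fin 8))) (l : List ℕ)
    (hl : l.length = 8) (v : Fin 8) (hv : v ≠ 1) (hE : ∀ e ∈ E, v ∉ e)
    (h : ¬ iso l v = true) : Z W E (l.set v (l.getD 1 0)) = Z W E l := by
  classical
  rw [iso_iff] at h
  push Not at h
  obtain ⟨u, huv, hlu⟩ := h
  unfold Z
  apply Finset.sum_congr rfl
  intro T hT
  have hT' : ∀ a b : Fin 8, s(a, b) ∈ T → a ≠ v ∧ b ≠ v := by
    intro a b hab
    have hm := hE _ (Finset.mem_powerset.1 hT hab)
    constructor
    · rintro rfl
      exact hm (Sym2.mem_mk_left _ _)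
    · rintro rfl
      exact hm (Sym2.mem_mk_right _ _)
  have e1 : (1 : ℕ) = ((1 : Fin 8) : ℕ) := rfl
  have hiff : Conn T (l.set v (l.getD 1 0)) ↔ Conn T l := by
    constructor
    · intro hc g h1 h2
      -- `g'` equals `g` except at `v`, where it is `g 1`
      have key := hc (fun w => if w = v then g 1 else g w)
        (by
          intro a b hab
          rw [set_getD l hl, set_getD l hl] at hab
          by_cases ha : a = v <;> by_cases hb : b = v
          · simp [ha, hb]
          · simp only [ha, hb, if_true, if_false] at hab ⊢
            exact h1 1 b hab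
          · simp only [ha, hb, if_true, if_false] at hab ⊢
            exact h1 a 1 hab
          · simp only [ha, hb, if_false] at hab ⊢
            exact h1 a b hab)
        (by
          intro a b hab
          obtain ⟨ha, hb⟩ := hT' a b hab
          simp only [ha, hb, if_false]
          exact h2 a b hab)
      have k2 : ∀ w : Fin 8, g w = g 1 := by
        intro w
        by_cases hw : w = v
        · subst hw
          rw [← h1 u w hlu]
          have := key u 1
          simpa [huv, hv.symm] using this
        · have := key w 1
          simpa [hw, hv.symm] using this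
      intro a b
      rw [k2 a, k2 b]
    · intro hc g h1 h2
      have key := hc (fun w => if w = v then g u else g w)
        (by
          intro a b hab
          have h1' : ∀ a b : Fin 8, a ≠ v → b ≠ v → l.getD a 0 = l.getD b 0 → g a = g b := by
            intro a b ha hb hab'
            apply h1
            rw [set_getD l hl, set_getD l hl]
            simp only [ha, hb, if_false]
            exact hab'
          by_cases ha : a = v <;> by_cases hb : b = v
          · simp [ha, hb]
          · simp only [ha, hb, if_true, if_false] at hab ⊢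
            exact h1' u b huv hb (hlu.trans hab)
          · simp only [ha, hb, if_true, if_false] at hab ⊢
            exact h1' a u ha huv (hab.trans hlu.symm)
          · simp only [ha, hb, if_false] at hab ⊢
            exact h1' a b ha hb hab)
        (by
          intro a b hab
          obtain ⟨ha, hb⟩ := hT' a b hab
          simp only [ha, hb, if_false]
          exact h2 a b hab)
      have k2 : ∀ w : Fin 8, g w = g 1 := by
        intro w
        by_cases hw : w = v
        · subst hw
          apply h1
          rw [set_getD l hl, set_getD l hl]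
          simp [hv.symm]
        · have := key w 1
          simpa [hw, hv.symm] using this
      intro a b
      rw [k2 a, k2 b]
  simp only [hiff]

/-! ## lists of states -/

/-- value of a weighted list of states -/
noncomputable def val (F : List ℕ → ℝ) (st : St) : ℝ :=
  (st.map (fun p => (p.2 : ℝ) * F p.1)).sum

theorem val_nil (F : List ℕ → ℝ) : val F [] = 0 := by simp [val]

theorem val_cons (F : List ℕ → ℝ) (p : List ℕ × ℕ) (st : St) :
    val F (p :: st) = (p.2 : ℝ) * F p.1 + val F st := by simp [val]

theorem val_ins (F : List ℕ → ℝ) (l : List ℕ) (c : ℕ) (st : St) :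
    val F (ins l c st) = (c : ℝ) * F l + val F st := by
  induction st with
  | nil => simp [ins, val]
  | cons p st ih =>
      unfold ins
      split_ifs with h
      · rw [val_cons, val_cons, h]
        push_cast
        ring
      · rw [val_cons, val_cons, ih]
        ring

/-- all labellings have length 8 -/
def Good (st : St) : Prop := ∀ p ∈ st, p.1.length = 8

theorem good_nil : Good [] := by intro p hp; simp at hp

theorem good_cons {p : List ℕ × ℕ} {st : St} :
    Good (p :: st) ↔ p.1.length = 8 ∧ Good st := by
  unfold Good; simp

theorem good_ins (l : List ℕ) (c : ℕ) (st : St) (hl : l.length = 8) (h : Good st) :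
    Good (ins l c st) := by
  induction st with
  | nil => unfold ins; rw [good_cons]; exact ⟨hl, good_nil⟩
  | cons p st ih =>
      rw [good_cons] at h
      unfold ins
      split_ifs with h'
      · rw [good_cons]; exact h
      · rw [good_cons]; exact ⟨h.1, ih h.2⟩

theorem good_stepE (i j n : ℕ) (st : St) (h : Good st) : Good (stepE i j n st) := by
  induction st with
  | nil => exact good_nil
  | cons p st ih =>
      rw [good_cons] at h
      unfold stepE
      exact good_ins _ _ _ h.1 (good_ins _ _ _ (by rw [mrg_length, h.1]) (ih h.2))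

theorem good_stepF (v : ℕ) (st : St) (h : Good st) : Good (stepF v st) := by
  induction st with
  | nil => exact good_nil
  | cons p st ih =>
      rw [good_cons] at h
      unfold stepF
      split_ifs
      · exact ih h.2
      · exact good_ins _ _ _ (by rw [List.length_set, h.1]) (ih h.2)

theorem val_stepE (W : Sym2 (Fin 8) → ℝ) (E : Finset (Sym2 (Fin 8))) (i j : Fin 8) (n : ℕ)
    (hE : s(i, j) ∉ E) (hW : W s(i, j) = (n : ℝ) / 1000) (st : St) (h : Good st) :
    val (Z W E) (stepE i j n st) = 1000 * val (Z W (insert s(i, j) E)) st := by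
  induction st with
  | nil => simp [stepE, val]
  | cons p st ih =>
      rw [good_cons] at h
      unfold stepE
      rw [val_ins, val_ins, ih h.2, val_cons, Z_insert W E p.1 h.1 i j hE, hW]
      push_cast
      ring

theorem val_stepF (W : Sym2 (Fin 8) → ℝ) (E : Finset (Sym2 (Fin 8))) (v : Fin 8)
    (hv : v ≠ 1) (hE : ∀ e ∈ E, v ∉ e) (st : St) (h : Good st) :
    val (Z W E) (stepF v st) = val (Z W E) st := by
  induction st with
  | nil => simp [stepF, val]
  | cons p st ih =>
      rw [good_cons] at h
      unfold stepF
      split_ifs with hi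
      · rw [val_cons, ih h.2, Z_iso W E p.1 v hE hi]; ring
      · rw [val_ins, val_cons, ih h.2, Z_move W E p.1 h.1 v hv hE hi]

theorem val_fin (W : Sym2 (Fin 8) → ℝ) (st : St) (h : Good st) :
    val (Z W ∅) st = (fin st : ℝ) := by
  induction st with
  | nil => simp [fin, val]
  | cons p st ih =>
      rw [good_cons] at h
      have e : fin (p :: st) = (if allEq p.1 = true then p.2 else 0) + fin st := rfl
      rw [val_cons, ih h.2, Z_empty W p.1 h.1, e]
      split_ifs <;> push_cast <;> simp

/-! ## operations -/

/-- edges of a list of operations -/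
def edges : List Op → Finset (Sym2 (Fin 8))
  | [] => ∅
  | .e i j _ :: os => insert s(Fin.ofNat 8 i, Fin.ofNat 8 j) (edges os)
  | .f _ :: os => edges os

/-- number of edges -/
def cnt : List Op → ℕ
  | [] => 0
  | .e _ _ _ :: os => cnt os + 1
  | .f _ :: os => cnt os

/-- admissible lists of operations -/
def okOps : List Op → Bool
  | [] => true
  | .e i j _ :: os => decide (i < 8) && decide (j < 8) &&
      decide (s(Fin.ofNat 8 i, Fin.ofNat 8 j) ∉ edges os) && okOps os
  | .f v :: os => decide (v < 8) && decide (v ≠ 1) &&
      decide (∀ e ∈ edges os, Fin.ofNat 8 v ∉ e) && okOps os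

/-- the weights agree with the list of operations -/
def okW (W : Sym2 (Fin 8) → ℝ) : List Op → Prop
  | [] => True
  | .e i j n :: os => W s(Fin.ofNat 8 i, Fin.ofNat 8 j) = (n : ℝ) / 1000 ∧ okW W os
  | .f _ :: os => okW W os

theorem ofNat_val (i : ℕ) (h : i < 8) : ((Fin.ofNat 8 i : Fin 8) : ℕ) = i := by
  simp [Fin.ofNat, Nat.mod_eq_of_lt h]

theorem run_eq (W : Sym2 (Fin 8) → ℝ) : ∀ (os : List Op) (st : St), okOps os = true →
    okW W os → Good st → (run os st : ℝ) = 1000 ^ cnt os * val (Z W (edges os)) st := by
  intro os
  induction os with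
  | nil =>
      intro st _ _ hg
      simp only [run, cnt, edges, pow_zero, one_mul]
      exact (val_fin W st hg).symm
  | cons o os ih =>
      intro st hok hW hg
      cases o with
      | e i j n =>
          simp only [okOps, Bool.and_eq_true, decide_eq_true_eq] at hok
          obtain ⟨⟨⟨hi, hj⟩, hn⟩, hok⟩ := hok
          simp only [okW] at hW
          simp only [run, cnt, edges]
          rw [ih _ hok hW.2 (good_stepE _ _ _ _ hg)]
          have := val_stepE W (edges os) (Fin.ofNat 8 i) (Fin.ofNat 8 j) n hn hW.1 st hg
          rw [ofNat_val i hi, ofNat_val j hj] at this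
          rw [this]
          ring
      | f v =>
          simp only [okOps, Bool.and_eq_true, decide_eq_true_eq] at hok
          obtain ⟨⟨⟨hv, hv1⟩, hn⟩, hok⟩ := hok
          simp only [okW] at hW
          simp only [run, cnt, edges]
          rw [ih _ hok hW (good_stepF _ _ hg)]
          have hne : (Fin.ofNat 8 v : Fin 8) ≠ 1 := by
            intro h'
            apply hv1
            have := congrArg (fun x : Fin 8 => (x : ℕ)) h'
            rw [ofNat_val v hv] at this
            exact this
          have := val_stepF W (edges os) (Fin.ofNat 8 v) hne hn st hg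
          rw [ofNat_val v hv] at this
          rw [this]

end Pool.Agent.Helper10.NC
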