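import Mathlib

/-!
# A weighted graph on 8 vertices for which edge negative correlation of the
  random connected subgraph fails: the numerical part.

Vertices `x = 0, y = 1, k = 2, l = 3, h = 4` and `5, 6, 7`; the two marked edges are
`xy = 01` and `kl = 23`.  The 15 weighted edges are listed in `ops` (weight `n / 1000`).
-/

set_option autoImplicit false

namespace Pool.Agent.Helper10.NC

/-- join the classes of `i` and `j` in the labelled partition `l` -/
def mrg (l : List ℕ) (i j : ℕ) : List ℕ :=
  let a := l.getD i 0
  let b := l.getD j 0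
  if a ≤ b then l.map (fun x => if x = b then a else x)
  else l.map (fun x => if x = a then b else x)

/-- weighted lists of labelled partitions -/
abbrev St : Type := List (List ℕ × ℕ)

/-- insert with collection of equal labels -/
def ins (l : List ℕ) (c : ℕ) : St → St
  | [] => [(l, c)]
  | p :: st => if l = p.1 then (p.1, p.2 + c) :: st else p :: ins l c st

/-- use the edge `ij` of weight `n / 1000` or not -/
def stepE (i j n : ℕ) : St → St
  | [] => []
  | p :: st => ins p.1 (1000 * p.2) (ins (mrg p.1 i j) (n * p.2) (stepE i j n st))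

/-- `v` is alone in its class -/
def iso (l : List ℕ) (v : ℕ) : Bool :=
  (List.range 8).all (fun u => u == v || l.getD u 0 != l.getD v 0)

/-- all edges at `v` have been used: `v` must not be alone, and is moved to the class of `1` -/
def stepF (v : ℕ) : St → St
  | [] => []
  | p :: st => if iso p.1 v = true then stepF v st
      else ins (p.1.set v (p.1.getD 1 0)) p.2 (stepF v st)

/-- operations -/
inductive Op where
  | e (i j n : ℕ)
  | f (v : ℕ)

/-- all labels equal -/
def allEq (l : List ℕ) : Bool := l.all (fun x => x == l.getD 0 0)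

/-- total weight of the connected configurations -/
def fin : St → ℕ
  | [] => 0
  | p :: st => (if allEq p.1 = true then p.2 else 0) + fin st

def run : List Op → St → ℕ
  | [], st => fin st
  | .e i j n :: os, st => run os (stepE i j n st)
  | .f v :: os, st => run os (stepF v st)

/-- the 15 edges -/
def ops : List Op :=
  [.e 5 2 30, .e 5 3 30, .e 5 4 60, .e 5 1 1, .f 5,
   .e 6 2 30, .e 6 3 30, .e 6 4 60, .e 6 1 1, .f 6,
   .e 7 2 30, .e 7 3 30, .e 7 4 60, .e 7 1 1, .f 7,
   .e 0 2 1, .e 0 3 1, .e 0 4 20]

def l0 : List ℕ := [0,1,2,3,4,5,6,7]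
def la : List ℕ := [0,0,2,3,4,5,6,7]
def lb : List ℕ := [0,1,2,2,4,5,6,7]
def lab : List ℕ := [0,0,2,2,4,5,6,7]

/-- the kernel computation -/
theorem main_num :
    run ops [(la, 1)] * run ops [(lb, 1)] < run ops [(l0, 1)] * run ops [(lab, 1)] := by
  decide +kernel

end Pool.Agent.Helper10.NC
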