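import Pool.Agent.Helper10.NC.Eval

/-!
# The strict inequality for the graph on 8 vertices and the negation of the conjecture
-/

set_option autoImplicit false

namespace Pool.Agent.Helper10.NC

open Finset

theorem connected_iff (S : Set (Sym2 (Fin 8))) :
    (SimpleGraph.fromEdgeSet S).Connected ↔
      ∀ g : Fin 8 → Bool, (∀ u v : Fin 8, s(u, v) ∈ S → g u = g v) → ∀ u v, g u = g v := by
  classical
  constructor
  · intro h g hg u v
    obtain ⟨w⟩ := h.preconnected u v
    induction w with
    | nil => rfl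
    | cons hadj _ ih =>
        rw [SimpleGraph.fromEdgeSet_adj] at hadj
        exact (hg _ _ hadj.1).trans ih
  · intro h
    have hp : (SimpleGraph.fromEdgeSet S).Preconnected := by
      intro u v
      have key := h (fun w => decide ((SimpleGraph.fromEdgeSet S).Reachable u w)) ?_ u v
      · simp only [SimpleGraph.Reachable.refl, decide_true] at key
        exact of_decide_eq_true key.symm
      · intro a b hab
        by_cases hne : a = b
        · rw [hne]
        · have hadj : (SimpleGraph.fromEdgeSet S).Adj a b := by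
            rw [SimpleGraph.fromEdgeSet_adj]
            exact ⟨hab, hne⟩
          have : (SimpleGraph.fromEdgeSet S).Reachable u a ↔
              (SimpleGraph.fromEdgeSet S).Reachable u b :=
            ⟨fun h' => h'.trans hadj.reachable, fun h' => h'.trans hadj.symm.reachable⟩
          simp only [this]
    exact ⟨hp⟩

/-- the edge weights: `3/100` between `{2,3}` and `{5,6,7}`, `6/100` between `4` and
`{5,6,7}`, `1/1000` between `1` and `{5,6,7}` and between `0` and `{2,3}`, `2/100` between
`0` and `4` -/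
def wN (e : Sym2 (Fin 8)) : ℕ :=
  if e = s(5,2) ∨ e = s(5,3) ∨ e = s(6,2) ∨ e = s(6,3) ∨ e = s(7,2) ∨ e = s(7,3) then 30
  else if e = s(5,4) ∨ e = s(6,4) ∨ e = s(7,4) then 60
  else if e = s(5,1) ∨ e = s(6,1) ∨ e = s(7,1) ∨ e = s(0,2) ∨ e = s(0,3) then 1
  else if e = s(0,4) then 20
  else 0

/-- the real weights -/
noncomputable def W (e : Sym2 (Fin 8)) : ℝ := (wN e : ℝ) / 1000

theorem W_nonneg (e : Sym2 (Fin 8)) : 0 ≤ W e := by
  unfold W; positivity

theorem wN_zero : ∀ e : Sym2 (Fin 8), e ∉ edges ops → wN e = 0 := by decide +kernel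

theorem wN_diag : ∀ e : Sym2 (Fin 8), e.IsDiag → wN e = 0 := by decide +kernel

theorem ok_ops : okOps ops = true := by decide +kernel

theorem okW_ops : okW W ops := by
  have h1 : wN s(5,2) = 30 := by decide +kernel
  have h2 : wN s(5,3) = 30 := by decide +kernel
  have h3 : wN s(5,4) = 60 := by decide +kernel
  have h4 : wN s(5,1) = 1 := by decide +kernel
  have h5 : wN s(6,2) = 30 := by decide +kernel
  have h6 : wN s(6,3) = 30 := by decide +kernel
  have h7 : wN s(6,4) = 60 := by decide +kernel
  have h8 : wN s(6,1) = 1 := by decide +kernel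
  have h9 : wN s(7,2) = 30 := by decide +kernel
  have h10 : wN s(7,3) = 30 := by decide +kernel
  have h11 : wN s(7,4) = 60 := by decide +kernel
  have h12 : wN s(7,1) = 1 := by decide +kernel
  have h13 : wN s(0,2) = 1 := by decide +kernel
  have h14 : wN s(0,3) = 1 := by decide +kernel
  have h15 : wN s(0,4) = 20 := by decide +kernel
  have e0 : (Fin.ofNat 8 0 : Fin 8) = 0 := rfl
  have e1 : (Fin.ofNat 8 1 : Fin 8) = 1 := rfl
  have e2 : (Fin.ofNat 8 2 : Fin 8) = 2 := rfl
  have e3 : (Fin.ofNat 8 3 : Fin 8) = 3 := rfl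
  have e4 : (Fin.ofNat 8 4 : Fin 8) = 4 := rfl
  have e5 : (Fin.ofNat 8 5 : Fin 8) = 5 := rfl
  have e6 : (Fin.ofNat 8 6 : Fin 8) = 6 := rfl
  have e7 : (Fin.ofNat 8 7 : Fin 8) = 7 := rfl
  simp only [ops, okW, W, e0, e1, e2, e3, e4, e5, e6, e7, h1, h2, h3, h4, h5, h6, h7, h8, h9,
    h10, h11, h12, h13, h14, h15]
  norm_num

theorem CC_eq (B : Finset (Sym2 (Fin 8))) (l : List ℕ)
    (h1 : ∀ u v : Fin 8, l.getD u 0 = l.getD v 0 → u = v ∨ s(u, v) ∈ B)
    (h2 : ∀ u v : Fin 8, s(u, v) ∈ B → l.getD u 0 = l.getD v 0) :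
    Helper88.NCR.CC W B = Z W (edges ops) l := by
  classical
  unfold Helper88.NCR.CC Z
  rw [← Finset.sum_subset (Finset.subset_univ (edges ops).powerset)]
  · apply Finset.sum_congr rfl
    intro T _
    have : (SimpleGraph.fromEdgeSet (↑(T ∪ B) : Set (Sym2 (Fin 8)))).Connected ↔
        Conn T l := by
      rw [connected_iff]
      unfold Conn
      constructor
      · intro h g hg1 hg2
        apply h g
        intro u v huv
        rcases Finset.mem_union.1 (Finset.mem_coe.1 huv) with h' | h'
        · exact hg2 u v h'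
        · exact hg1 u v (h2 u v h')
      · intro h g hg
        apply h g
        · intro u v huv
          rcases h1 u v huv with h' | h'
          · rw [h']
          · exact hg u v (Finset.mem_coe.2 (Finset.mem_union_right _ h'))
        · intro u v huv
          exact hg u v (Finset.mem_coe.2 (Finset.mem_union_left _ huv))
    by_cases hc : Conn T l
    · rw [if_pos hc]
      have hc' := this.2 hc
      convert mul_one _ using 2
      exact if_pos (by convert hc')
    · rw [if_neg hc]
      have hc' : ¬ (SimpleGraph.fromEdgeSet (↑(T ∪ B) : Set (Sym2 (Fin 8)))).Connected :=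
        fun h => hc (this.1 h)
      convert mul_zero _ using 2
      exact if_neg (by convert hc')
  · intro T _ hT
    rw [Finset.mem_powerset, Finset.not_subset] at hT
    obtain ⟨e, heT, he⟩ := hT
    have h0 : W e = 0 := by
      unfold W; rw [wN_zero e he]; simp
    have : ∏ e ∈ T, W e = 0 := Finset.prod_eq_zero heT h0
    rw [this]; simp

theorem CC_num (B : Finset (Sym2 (Fin 8))) (l : List ℕ) (hl : l.length = 8)
    (h1 : ∀ u v : Fin 8, l.getD u 0 = l.getD v 0 → u = v ∨ s(u, v) ∈ B)
    (h2 : ∀ u v : Fin 8, s(u, v) ∈ B → l.getD u 0 = l.getD v 0) :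
    (run ops [(l, 1)] : ℝ) = 1000 ^ cnt ops * Helper88.NCR.CC W B := by
  rw [CC_eq B l h1 h2]
  have hg : Good [(l, 1)] := by
    intro p hp
    simp only [List.mem_singleton] at hp
    rw [hp]; exact hl
  rw [run_eq W ops [(l, 1)] ok_ops okW_ops hg, val_cons, val_nil]
  push_cast
  ring

/-- the strict inequality -/
theorem strict :
    Helper88.NCR.CC W {s(0, 1)} * Helper88.NCR.CC W {s(2, 3)} <
      Helper88.NCR.CC W ∅ * Helper88.NCR.CC W {s(0, 1), s(2, 3)} := by
  have ha := CC_num {s(0, 1)} la rfl (by decide +kernel) (by decide +kernel)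
  have hb := CC_num {s(2, 3)} lb rfl (by decide +kernel) (by decide +kernel)
  have h0 := CC_num ∅ l0 rfl (by decide +kernel) (by decide +kernel)
  have hab := CC_num {s(0, 1), s(2, 3)} lab rfl (by decide +kernel) (by decide +kernel)
  have hm : (run ops [(la, 1)] : ℝ) * (run ops [(lb, 1)] : ℝ) <
      (run ops [(l0, 1)] : ℝ) * (run ops [(lab, 1)] : ℝ) := by
    exact_mod_cast main_num
  rw [ha, hb, h0, hab] at hm
  have hp : (0 : ℝ) < 1000 ^ cnt ops * 1000 ^ cnt ops := by positivity
  refine lt_of_mul_lt_mul_left (a := (1000 : ℝ) ^ cnt ops * 1000 ^ cnt ops) ?_ hp.le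
  calc _ = (1000 : ℝ) ^ cnt ops * Helper88.NCR.CC W {s(0, 1)} *
        (1000 ^ cnt ops * Helper88.NCR.CC W {s(2, 3)}) := by ring
    _ < _ := hm
    _ = _ := by ring

/-- the conjecture is false -/
theorem not_main : ¬ Helper88.NCR.Main := by
  apply Helper88.NCR.red (Fin 8) W s(0, 1) s(2, 3) W_nonneg
  · intro e he
    unfold W; rw [wN_diag e he]; simp
  · decide
  · decide
  · decide
  · have : wN s(0, 1) = 0 := by decide +kernel
    unfold W; rw [this]; simp
  · have : wN s(2, 3) = 0 := by decide +kernel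
    unfold W; rw [this]; simp
  · convert strict using 3
    ext e
    simp only [Finset.mem_insert, Finset.mem_singleton]

end Pool.Agent.Helper10.NC
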